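import Pool.Agent.Lib_helper95.RC.State

/-!
# LDK, block ABS: the direction theorem

If `G α (A₁ ⊗ A₂) (D₁ ⊗ D₂)` is bounded by an integral of `G α (x A₁) (y D₁)` over directions
`(x, y)`, `|y| ≤ x`, with equality when the first system is the scalar pair `(1, 1)`, then Q1 holds
for the pairs `(A₁, D₁)`, `(A₂, D₂)`.
-/

set_option autoImplicit false

open scoped BigOperators ComplexOrder Kronecker MatrixOrder Topology
open MeasureTheory Set Matrix Filter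

namespace Pool.Agent.LDK

open Pool.Agent.RC

variable {ι κ : Type} [Fintype ι] [DecidableEq ι] [Fintype κ] [DecidableEq κ]

/-- the real scalar `x` as a `1 × 1` matrix -/
noncomputable def sc (x : ℝ) : Matrix (Fin 1) (Fin 1) ℂ := (x : ℂ) • 1

theorem sc_isHermitian (x : ℝ) : (sc x).IsHermitian := by
  unfold sc Matrix.IsHermitian
  rw [Matrix.conjTranspose_smul, Matrix.conjTranspose_one]
  simp

theorem sc_posSemidef {x : ℝ} (hx : 0 ≤ x) : (sc x).PosSemidef := by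
  unfold sc
  exact Matrix.PosSemidef.one.smul (by exact_mod_cast hx)

theorem sc_add (x y : ℝ) : sc x + sc y = sc (x + y) := by
  unfold sc; rw [← add_smul]; push_cast; rfl

theorem sc_sub (x y : ℝ) : sc x - sc y = sc (x - y) := by
  unfold sc; rw [← sub_smul]; push_cast; rfl

theorem isPsdPair_sc {x y : ℝ} (h : |y| ≤ x) : IsPsdPair (sc x) (sc y) where
  pos := sc_posSemidef ((abs_nonneg y).trans h)
  sub := by rw [sc_sub]; exact sc_posSemidef (by linarith [le_abs_self y])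
  add := by rw [sc_add]; exact sc_posSemidef (by linarith [neg_abs_le y])

theorem flag_sc (x y : ℝ) : Flag (sc x) (sc y) := by
  apply Sig11.flag
  rcases le_total 0 y with h | h
  · refine ⟨fun _ => ((Real.sqrt y : ℝ) : ℂ), 0, ?_⟩
    ext i j
    have hs : ((Real.sqrt y : ℝ) : ℂ) * ((Real.sqrt y : ℝ) : ℂ) = (y : ℂ) := by
      rw [← Complex.ofReal_mul, Real.mul_self_sqrt h]
    fin_cases i; fin_cases j
    simp [sc, vecMulVec_apply, hs]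
  · refine ⟨0, fun _ => ((Real.sqrt (-y) : ℝ) : ℂ), ?_⟩
    ext i j
    have hs : ((Real.sqrt (-y) : ℝ) : ℂ) * ((Real.sqrt (-y) : ℝ) : ℂ) = (-y : ℂ) := by
      rw [← Complex.ofReal_mul, Real.mul_self_sqrt (by linarith)]; push_cast; rfl
    fin_cases i; fin_cases j
    simp [sc, vecMulVec_apply, hs]

/-- `Fin 1 × ι ≃ ι` -/
def e1 (ι : Type) : Fin 1 × ι ≃ ι where
  toFun p := p.2
  invFun i := (0, i)
  left_inv p := by ext <;> simp
  right_inv i := rfl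

theorem sc_kron_reindex (x : ℝ) (A : Matrix ι ι ℂ) :
    Matrix.reindex (e1 ι) (e1 ι) (sc x ⊗ₖ A) = (x : ℂ) • A := by
  ext i j
  simp [e1, sc, Matrix.kroneckerMap_apply]

theorem G_sc_kron (α x y : ℝ) (A D : Matrix ι ι ℂ) :
    G α (sc x ⊗ₖ A) (sc y ⊗ₖ D) = G α ((x : ℂ) • A) ((y : ℂ) • D) := by
  have h1 : Matrix.reindex (e1 ι) (e1 ι) (sc x ⊗ₖ A + sc y ⊗ₖ D) =
      (x : ℂ) • A + (y : ℂ) • D := by
    rw [← sc_kron_reindex, ← sc_kron_reindex]; rfl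
  have h2 : Matrix.reindex (e1 ι) (e1 ι) (sc x ⊗ₖ A - sc y ⊗ₖ D) =
      (x : ℂ) • A - (y : ℂ) • D := by
    rw [← sc_kron_reindex, ← sc_kron_reindex]; rfl
  unfold G
  rw [← h1, ← h2, ← sc_kron_reindex x A, trF_reindex, trF_reindex, trF_reindex]

theorem G_kron_sc (α x y : ℝ) (A D : Matrix ι ι ℂ) :
    G α (A ⊗ₖ sc x) (D ⊗ₖ sc y) = G α ((x : ℂ) • A) ((y : ℂ) • D) := by
  rw [G_swap, G_sc_kron]

theorem G_one_kron (α : ℝ) (A D : Matrix ι ι ℂ) : G α (sc 1 ⊗ₖ A) (sc 1 ⊗ₖ D) = G α A D := by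
  rw [G_sc_kron]; simp

/-- one scalar partner, `α ∈ (0,2] ∪ [3,4]` -/
theorem dir_scalar_le {α : ℝ} (hα : (0 < α ∧ α ≤ 2 ∧ α ≠ 1) ∨ (3 ≤ α ∧ α ≤ 4))
    {A D : Matrix ι ι ℂ} (h : IsPsdPair A D) {x y : ℝ} (hxy : |y| ≤ x) :
    G α (sc x) (sc y) * G α A D ≤ (2 ^ (α - 1) - 1) * G α ((x : ℂ) • A) ((y : ℂ) • D) := by
  rw [← G_sc_kron]
  rcases hα with ⟨h0, h2, h1⟩ | ⟨h3, h4⟩
  · exact final02 α h0 h2 h1 _ _ (isPsdPair_sc hxy) (flag_sc x y) _ _ h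
  · exact final34 α h3 h4 _ _ (isPsdPair_sc hxy) (flag_sc x y) _ _ h

/-- one scalar partner, `α ∈ [2,3]` -/
theorem dir_scalar_ge {α : ℝ} (h2 : 2 ≤ α) (h3 : α ≤ 3)
    {A D : Matrix ι ι ℂ} (h : IsPsdPair A D) {x y : ℝ} (hxy : |y| ≤ x) :
    (2 ^ (α - 1) - 1) * G α ((x : ℂ) • A) ((y : ℂ) • D) ≤ G α (sc x) (sc y) * G α A D := by
  rw [← G_sc_kron]
  exact final23 α h2 h3 _ _ (isPsdPair_sc hxy) (flag_sc x y) _ _ h

/-- the direction theorem, `α ∈ (0,2] ∪ [3,4]` -/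
theorem dir_le {α : ℝ} (hα : (0 < α ∧ α ≤ 2 ∧ α ≠ 1) ∨ (3 ≤ α ∧ α ≤ 4))
    {A₁ D₁ : Matrix ι ι ℂ} (h₁ : IsPsdPair A₁ D₁) {A₂ D₂ : Matrix κ κ ℂ}
    {Ω : Type} [MeasurableSpace Ω] {μ : Measure Ω} {x y : Ω → ℝ}
    (hadm : ∀ᵐ ω ∂μ, |y ω| ≤ x ω)
    (hint : Integrable (fun ω => G α ((x ω : ℂ) • A₁) ((y ω : ℂ) • D₁)) μ)
    (hint' : Integrable (fun ω => G α (sc (x ω)) (sc (y ω))) μ)
    (heq : G α A₂ D₂ = ∫ ω, G α (sc (x ω)) (sc (y ω)) ∂μ)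
    (hle : (2 ^ (α - 1) - 1) * ∫ ω, G α ((x ω : ℂ) • A₁) ((y ω : ℂ) • D₁) ∂μ ≤
      (2 ^ (α - 1) - 1) * G α (A₁ ⊗ₖ A₂) (D₁ ⊗ₖ D₂)) :
    G α A₁ D₁ * G α A₂ D₂ ≤ (2 ^ (α - 1) - 1) * G α (A₁ ⊗ₖ A₂) (D₁ ⊗ₖ D₂) := by
  refine le_trans ?_ hle
  rw [heq, ← integral_const_mul, ← integral_const_mul]
  apply integral_mono_ae (hint'.const_mul _) (hint.const_mul _)
  filter_upwards [hadm] with ω hω
  have := dir_scalar_le hα h₁ hω
  linarith [mul_comm (G α A₁ D₁) (G α (sc (x ω)) (sc (y ω)))]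

/-- the direction theorem, `α ∈ [2,3]` -/
theorem dir_ge {α : ℝ} (h2 : 2 ≤ α) (h3 : α ≤ 3)
    {A₁ D₁ : Matrix ι ι ℂ} (h₁ : IsPsdPair A₁ D₁) {A₂ D₂ : Matrix κ κ ℂ}
    {Ω : Type} [MeasurableSpace Ω] {μ : Measure Ω} {x y : Ω → ℝ}
    (hadm : ∀ᵐ ω ∂μ, |y ω| ≤ x ω)
    (hint : Integrable (fun ω => G α ((x ω : ℂ) • A₁) ((y ω : ℂ) • D₁)) μ)
    (hint' : Integrable (fun ω => G α (sc (x ω)) (sc (y ω))) μ)
    (heq : G α A₂ D₂ = ∫ ω, G α (sc (x ω)) (sc (y ω)) ∂μ)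
    (hge : (2 ^ (α - 1) - 1) * G α (A₁ ⊗ₖ A₂) (D₁ ⊗ₖ D₂) ≤
      (2 ^ (α - 1) - 1) * ∫ ω, G α ((x ω : ℂ) • A₁) ((y ω : ℂ) • D₁) ∂μ) :
    (2 ^ (α - 1) - 1) * G α (A₁ ⊗ₖ A₂) (D₁ ⊗ₖ D₂) ≤ G α A₁ D₁ * G α A₂ D₂ := by
  refine le_trans hge ?_
  rw [heq, ← integral_const_mul, ← integral_const_mul]
  apply integral_mono_ae (hint.const_mul _) (hint'.const_mul _)
  filter_upwards [hadm] with ω hω
  have := dir_scalar_ge h2 h3 h₁ hω
  linarith [mul_comm (G α A₁ D₁) (G α (sc (x ω)) (sc (y ω)))]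

/-! ### A functional version

`DF α I`: the functional `I` of the pairs of the first system is dominated (in the sense of the
range of `α`) by its value at the scalar pair `(1,1)` times `G`. The class is closed under sums,
nonnegative multiples and integrals and contains all directions. -/

/-- functionals of the first system -/
abbrev PF : Type 1 := ∀ (ι : Type) [Fintype ι] [DecidableEq ι], Matrix ι ι ℂ → Matrix ι ι ℂ → ℝ

/-- domination, `α ∈ (0,2] ∪ [3,4]` -/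
def DFle (α : ℝ) (I : PF) : Prop :=
  ∀ (ι : Type) [Fintype ι] [DecidableEq ι] (A D : Matrix ι ι ℂ), IsPsdPair A D →
    G α A D * I (Fin 1) (sc 1) (sc 1) ≤ (2 ^ (α - 1) - 1) * I ι A D

/-- domination, `α ∈ [2,3]` -/
def DFge (α : ℝ) (I : PF) : Prop :=
  ∀ (ι : Type) [Fintype ι] [DecidableEq ι] (A D : Matrix ι ι ℂ), IsPsdPair A D →
    (2 ^ (α - 1) - 1) * I ι A D ≤ G α A D * I (Fin 1) (sc 1) (sc 1)

theorem smul_sc_one (x : ℝ) : (x : ℂ) • sc 1 = sc x := by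
  unfold sc; simp

theorem DFle.dir {α : ℝ} (hα : (0 < α ∧ α ≤ 2 ∧ α ≠ 1) ∨ (3 ≤ α ∧ α ≤ 4)) {x y : ℝ}
    (hxy : |y| ≤ x) : DFle α (fun _ _ _ A D => G α ((x : ℂ) • A) ((y : ℂ) • D)) := by
  intro ι _ _ A D h
  have := dir_scalar_le hα h hxy
  show G α A D * G α ((x : ℂ) • sc 1) ((y : ℂ) • sc 1) ≤ _
  rw [smul_sc_one, smul_sc_one, mul_comm]
  exact this

theorem DFge.dir {α : ℝ} (h2 : 2 ≤ α) (h3 : α ≤ 3) {x y : ℝ}
    (hxy : |y| ≤ x) : DFge α (fun _ _ _ A D => G α ((x : ℂ) • A) ((y : ℂ) • D)) := by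
  intro ι _ _ A D h
  have := dir_scalar_ge h2 h3 h hxy
  show _ ≤ G α A D * G α ((x : ℂ) • sc 1) ((y : ℂ) • sc 1)
  rw [smul_sc_one, smul_sc_one, mul_comm (G α A D)]
  exact this

theorem DFle.add {α : ℝ} {I J : PF} (hI : DFle α I) (hJ : DFle α J) :
    DFle α (fun ι _ _ A D => I ι A D + J ι A D) := by
  intro ι _ _ A D h
  have := hI ι A D h
  have := hJ ι A D h
  simp only
  nlinarith

theorem DFge.add {α : ℝ} {I J : PF} (hI : DFge α I) (hJ : DFge α J) :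
    DFge α (fun ι _ _ A D => I ι A D + J ι A D) := by
  intro ι _ _ A D h
  have := hI ι A D h
  have := hJ ι A D h
  simp only
  nlinarith

theorem DFle.smul {α : ℝ} {I : PF} (hI : DFle α I) {c : ℝ} (hc : 0 ≤ c) :
    DFle α (fun ι _ _ A D => c * I ι A D) := by
  intro ι _ _ A D h
  have := mul_le_mul_of_nonneg_left (hI ι A D h) hc
  simp only
  linarith

theorem DFge.smul {α : ℝ} {I : PF} (hI : DFge α I) {c : ℝ} (hc : 0 ≤ c) :
    DFge α (fun ι _ _ A D => c * I ι A D) := by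
  intro ι _ _ A D h
  have := mul_le_mul_of_nonneg_left (hI ι A D h) hc
  simp only
  linarith

theorem DFle.sum {α : ℝ} {J : Type} (s : Finset J) {I : J → PF} (hI : ∀ j ∈ s, DFle α (I j)) :
    DFle α (fun ι _ _ A D => ∑ j ∈ s, I j ι A D) := by
  intro ι _ _ A D h
  simp only
  rw [Finset.mul_sum, Finset.mul_sum]
  exact Finset.sum_le_sum fun j hj => hI j hj ι A D h

theorem DFge.sum {α : ℝ} {J : Type} (s : Finset J) {I : J → PF} (hI : ∀ j ∈ s, DFge α (I j)) :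
    DFge α (fun ι _ _ A D => ∑ j ∈ s, I j ι A D) := by
  intro ι _ _ A D h
  simp only
  rw [Finset.mul_sum, Finset.mul_sum]
  exact Finset.sum_le_sum fun j hj => hI j hj ι A D h

/-- integrals; the integrability is asked for all PSD pairs -/
theorem DFle.integral {α : ℝ} {Ω : Type} [MeasurableSpace Ω] {μ : Measure Ω} {I : Ω → PF}
    (hI : ∀ᵐ ω ∂μ, DFle α (I ω))
    (hint : ∀ (ι : Type) [Fintype ι] [DecidableEq ι] (A D : Matrix ι ι ℂ), IsPsdPair A D →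
      Integrable (fun ω => I ω ι A D) μ) :
    DFle α (fun ι _ _ A D => ∫ ω, I ω ι A D ∂μ) := by
  intro ι _ _ A D h
  simp only
  rw [← integral_const_mul, ← integral_const_mul]
  apply integral_mono_ae ((hint (Fin 1) _ _ (isPsdPair_sc (by norm_num))).const_mul _)
    ((hint ι A D h).const_mul _)
  filter_upwards [hI] with ω hω
  exact hω ι A D h

theorem DFge.integral {α : ℝ} {Ω : Type} [MeasurableSpace Ω] {μ : Measure Ω} {I : Ω → PF}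
    (hI : ∀ᵐ ω ∂μ, DFge α (I ω))
    (hint : ∀ (ι : Type) [Fintype ι] [DecidableEq ι] (A D : Matrix ι ι ℂ), IsPsdPair A D →
      Integrable (fun ω => I ω ι A D) μ) :
    DFge α (fun ι _ _ A D => ∫ ω, I ω ι A D ∂μ) := by
  intro ι _ _ A D h
  simp only
  rw [← integral_const_mul, ← integral_const_mul]
  apply integral_mono_ae ((hint ι A D h).const_mul _)
    ((hint (Fin 1) _ _ (isPsdPair_sc (by norm_num))).const_mul _)
  filter_upwards [hI] with ω hω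
  exact hω ι A D h

/-- conclusion, `α ∈ (0,2] ∪ [3,4]` -/
theorem DFle.final {α : ℝ} {I : PF} (hI : DFle α I) {A₁ D₁ : Matrix ι ι ℂ}
    (h₁ : IsPsdPair A₁ D₁) {A₂ D₂ : Matrix κ κ ℂ}
    (heq : G α A₂ D₂ = I (Fin 1) (sc 1) (sc 1))
    (hle : (2 ^ (α - 1) - 1) * I ι A₁ D₁ ≤ (2 ^ (α - 1) - 1) * G α (A₁ ⊗ₖ A₂) (D₁ ⊗ₖ D₂)) :
    G α A₁ D₁ * G α A₂ D₂ ≤ (2 ^ (α - 1) - 1) * G α (A₁ ⊗ₖ A₂) (D₁ ⊗ₖ D₂) := by
  rw [heq]
  exact (hI ι A₁ D₁ h₁).trans hle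

/-- conclusion, `α ∈ [2,3]` -/
theorem DFge.final {α : ℝ} {I : PF} (hI : DFge α I) {A₁ D₁ : Matrix ι ι ℂ}
    (h₁ : IsPsdPair A₁ D₁) {A₂ D₂ : Matrix κ κ ℂ}
    (heq : G α A₂ D₂ = I (Fin 1) (sc 1) (sc 1))
    (hge : (2 ^ (α - 1) - 1) * G α (A₁ ⊗ₖ A₂) (D₁ ⊗ₖ D₂) ≤ (2 ^ (α - 1) - 1) * I ι A₁ D₁) :
    (2 ^ (α - 1) - 1) * G α (A₁ ⊗ₖ A₂) (D₁ ⊗ₖ D₂) ≤ G α A₁ D₁ * G α A₂ D₂ := by
  rw [heq]
  exact hge.trans (hI ι A₁ D₁ h₁)

/-- values of a direction at the scalar pair -/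
theorem G_sc (α x y : ℝ) : G α (sc x) (sc y) = ((x + y) ^ α + (x - y) ^ α) / 2 - x ^ α := by
  have h : ∀ t : ℝ, trF (fun x => x ^ α) (sc t) = t ^ α := by
    intro t
    have e : sc t = (1 : Matrix (Fin 1) (Fin 1) ℂ) * Matrix.diagonal (fun _ => (t : ℂ)) *
        (1 : Matrix (Fin 1) (Fin 1) ℂ)ᴴ := by
      ext i j
      fin_cases i; fin_cases j
      simp [sc]
    rw [e, TRF.trF_conj _ (by simp) (fun _ => t)]
    simp
  unfold G
  rw [sc_add, sc_sub, h, h, h]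

end Pool.Agent.LDK
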