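import Pool.Agent.Lib_helper18.LDK.St
import Pool.Agent.Lib_helper4.LDK.Defs

/-!
# LDK, block BLK: from generic blocks to flagged mixtures and states

`GenOpen`: the inequality for generic blocks `R > 0`, `S = l R + v v* - w w* ≥ 0`, `v, w` linearly
independent (to be proved from the direction measure). `PertSt`: the statement of block PERT.
Everything else is here: good blocks, flagged mixtures, the endpoints `1, 2, 3, 4`, states.
-/

set_option autoImplicit false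

open scoped BigOperators ComplexOrder Kronecker MatrixOrder Topology
open MeasureTheory Set Matrix Filter

namespace Pool.Agent.LDK

open Pool.Agent.RC Pool.Agent.Lib_helper98.Renyi

variable {ι κ b : Type} [Fintype ι] [DecidableEq ι] [Fintype κ] [DecidableEq κ]
  [Fintype b] [DecidableEq b]

/-- the open-range inequalities for generic blocks -/
def GenOpen : Prop :=
  ∀ (κ : Type) [Fintype κ] [DecidableEq κ] (R : Matrix κ κ ℂ) (v w : κ → ℂ) (l : ℝ),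
    R.PosDef → LinearIndependent ℂ ![v, w] → 0 ≤ l →
    ((l : ℂ) • R + (vecMulVec v (star v) - vecMulVec w (star w))).PosSemidef →
    Q1Open (((l : ℂ) • R + (vecMulVec v (star v) - vecMulVec w (star w))) + R)
      (((l : ℂ) • R + (vecMulVec v (star v) - vecMulVec w (star w))) - R)

/-- the statement of block PERT -/
def PertSt : Prop :=
  ∀ (κ : Type) [Fintype κ] [DecidableEq κ], 2 ≤ Fintype.card κ → ∀ R S : Matrix κ κ ℂ,
    R.PosSemidef → S.PosSemidef → ∀ l : ℝ, 0 ≤ l → RC.Sig11 (S - (l : ℂ) • R) →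
    ∃ (Rs Ss : ℕ → Matrix κ κ ℂ) (ls : ℕ → ℝ) (vs ws : ℕ → κ → ℂ),
      (∀ n, (Rs n).PosDef ∧ (Ss n).PosSemidef ∧ 0 ≤ ls n ∧
        LinearIndependent ℂ ![vs n, ws n] ∧
        Ss n = (ls n : ℂ) • Rs n +
          (vecMulVec (vs n) (star (vs n)) - vecMulVec (ws n) (star (ws n)))) ∧
      Tendsto Rs atTop (𝓝 R) ∧ Tendsto Ss atTop (𝓝 S)

theorem Q1Open.ineq {A₂ D₂ : Matrix κ κ ℂ} (h : Q1Open A₂ D₂) (α : ℝ) : Ineq α A₂ D₂ :=
  fun ι _ _ A D hA => ⟨fun hα => h.le hα ι A D hA, fun h23 => h.ge h23.1 h23.2 ι A D hA⟩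

theorem Q1Open.lim {A D : ℕ → Matrix κ κ ℂ} {A₀ D₀ : Matrix κ κ ℂ}
    (h : ∀ j, IsPsdPair (A j) (D j)) (h₀ : IsPsdPair A₀ D₀) (tA : Tendsto A atTop (𝓝 A₀))
    (tD : Tendsto D atTop (𝓝 D₀)) (hq : ∀ j, Q1Open (A j) (D j)) : Q1Open A₀ D₀ where
  r02 α h0 h2 h1 := Q1le.lim h0 h h₀ tA tD fun j => (hq j).r02 α h0 h2 h1
  r23 α h2 h3 := Q1ge.lim (by linarith) h h₀ tA tD fun j => (hq j).r23 α h2 h3
  r34 α h3 h4 := Q1le.lim (by linarith) h h₀ tA tD fun j => (hq j).r34 α h3 h4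

theorem Q1Open.neg {A D : Matrix κ κ ℂ} (h : Q1Open A (-D)) : Q1Open A D where
  r02 α h0 h2 h1 := (h.r02 α h0 h2 h1).neg
  r23 α h2 h3 := (h.r23 α h2 h3).neg
  r34 α h3 h4 := (h.r34 α h3 h4).neg

theorem isPsdPair_of_SR {R S : Matrix κ κ ℂ} (hR : R.PosSemidef) (hS : S.PosSemidef) :
    IsPsdPair (S + R) (S - R) where
  pos := hS.add hR
  sub := by
    have e : S + R - (S - R) = R + R := by abel
    rw [e]; exact hR.add hR
  add := by
    have e : S + R + (S - R) = S + S := by abel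
    rw [e]; exact hS.add hS

/-- matrices of size at most one are `± v v*` -/
theorem sig11_of_card_lt_two (hκ : ¬ 2 ≤ Fintype.card κ) {D : Matrix κ κ ℂ}
    (hD : D.IsHermitian) : RC.Sig11 D := by
  have hsub : Subsingleton κ := Fintype.card_le_one_iff_subsingleton.1 (by omega)
  rcases isEmpty_or_nonempty κ with hE | ⟨⟨k⟩⟩
  · exact ⟨0, 0, by ext i; exact (hE.false i).elim⟩
  · have h1 : D = (((D k k).re : ℝ) : ℂ) • vecMulVec (fun _ : κ => (1 : ℂ))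
        (star fun _ : κ => (1 : ℂ)) := by
      ext i j
      rw [Subsingleton.elim i k, Subsingleton.elim j k]
      have h2 : (D k k) = (((D k k).re : ℝ) : ℂ) := by
        have h3 : star (D k k) = D k k := hD.apply k k
        exact (Complex.conj_eq_iff_re.1 h3).symm
      simp only [Matrix.smul_apply, vecMulVec_apply, Pi.star_apply, star_one, mul_one, smul_eq_mul]
      exact h2
    rw [h1]
    exact Sig11.smul ⟨fun _ => 1, 0, by simp⟩ _

/-- the `λ` form of a block, from generic blocks and perturbation -/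
theorem open_of_lam (hg : GenOpen) (hp : PertSt) {A D : Matrix κ κ ℂ} (h : IsPsdPair A D)
    {l : ℝ} (hl : 0 ≤ l) (hE : RC.Sig11 ((A + D) - (l : ℂ) • (A - D))) : Q1Open A D := by
  by_cases hκ : 2 ≤ Fintype.card κ
  · -- `S = (A+D)/2`, `R = (A-D)/2`
    have hhalf : ∀ M : Matrix κ κ ℂ, M.PosSemidef → (((1 / 2 : ℝ) : ℂ) • M).PosSemidef :=
      fun M hM => hM.smul (by exact_mod_cast (by norm_num : (0 : ℝ) ≤ 1 / 2))
    set S : Matrix κ κ ℂ := ((1 / 2 : ℝ) : ℂ) • (A + D) with hSd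
    set R : Matrix κ κ ℂ := ((1 / 2 : ℝ) : ℂ) • (A - D) with hRd
    have hS : S.PosSemidef := hhalf _ h.add
    have hR : R.PosSemidef := hhalf _ h.sub
    have hE' : RC.Sig11 (S - (l : ℂ) • R) := by
      have e : S - (l : ℂ) • R = ((1 / 2 : ℝ) : ℂ) • ((A + D) - (l : ℂ) • (A - D)) := by
        rw [hSd, hRd]; module
      rw [e]
      exact Sig11.smul hE _
    obtain ⟨Rs, Ss, ls, vs, ws, h1, tR, tS⟩ := hp κ hκ R S hR hS l hl hE'
    have eA : A = S + R := by rw [hSd, hRd]; push_cast; module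
    have eD : D = S - R := by rw [hSd, hRd]; push_cast; module
    refine Q1Open.lim (A := fun n => Ss n + Rs n) (D := fun n => Ss n - Rs n)
      (fun n => isPsdPair_of_SR (h1 n).1.posSemidef (h1 n).2.1) h
      (by rw [eA]; exact tS.add tR) (by rw [eD]; exact tS.sub tR) fun n => ?_
    obtain ⟨hRn, hSn, hln, hvw, hEn⟩ := h1 n
    have := hg κ (Rs n) (vs n) (ws n) (ls n) hRn hvw hln (by rw [← hEn]; exact hSn)
    rw [hEn]
    exact this
  · exact Q1Open.landed h (sig11_of_card_lt_two hκ h.herm)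

/-- good blocks -/
theorem good_open (hg : GenOpen) (hp : PertSt) {A D : Matrix κ κ ℂ} (h : IsPsdPair A D)
    (hgd : Good A D) : Q1Open A D := by
  obtain ⟨a, c, ha, hc, hac, hE⟩ := hgd
  rcases eq_or_lt_of_le ha with ha0 | ha0
  · -- `a = 0`: `A - D` is of the form `v v* - w w*`
    have hc0 : 0 < c := by rw [← ha0] at hac; linarith
    have h1 : RC.Sig11 (A - D) := by
      have := Sig11.smul hE (-c⁻¹)
      rw [← ha0] at this
      have e : ((-c⁻¹ : ℝ) : ℂ) • (((0 : ℝ) : ℂ) • (A + D) - (c : ℂ) • (A - D)) = A - D := by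
        have hcc : (c : ℂ) ≠ 0 := by exact_mod_cast hc0.ne'
        rw [Complex.ofReal_zero, zero_smul, zero_sub, smul_neg, smul_smul]
        push_cast
        rw [neg_mul, inv_mul_cancel₀ hcc]
        simp
      rwa [e] at this
    apply Q1Open.neg
    apply open_of_lam hg hp (pair_neg h) (le_refl 0)
    have e : (A + -D) - ((0 : ℝ) : ℂ) • (A - -D) = A - D := by
      rw [Complex.ofReal_zero, zero_smul, sub_zero, ← sub_eq_add_neg]
    rw [e]
    exact h1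
  · have hl : 0 ≤ c / a := div_nonneg hc ha
    apply open_of_lam hg hp h hl
    have := Sig11.smul hE a⁻¹
    have haa : (a : ℂ) ≠ 0 := by exact_mod_cast ha0.ne'
    have e : ((a⁻¹ : ℝ) : ℂ) • ((a : ℂ) • (A + D) - (c : ℂ) • (A - D)) =
        (A + D) - ((c / a : ℝ) : ℂ) • (A - D) := by
      rw [smul_sub, smul_smul, smul_smul]
      push_cast
      rw [inv_mul_cancel₀ haa, one_smul, div_eq_inv_mul]
    rwa [e] at this

theorem good_ineq_of (hg : GenOpen) (hp : PertSt) {A₂ D₂ : Matrix κ κ ℂ}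
    (h : IsPsdPair A₂ D₂) (hgd : Good A₂ D₂) (α : ℝ) : Ineq α A₂ D₂ :=
  (good_open hg hp h hgd).ineq α

/-- flagged mixtures of good blocks -/
theorem flag2_open (hg : GenOpen) (hp : PertSt) {A D : Matrix κ κ ℂ} (h : IsPsdPair A D)
    (hf : Flag2 A D) : Q1Open A D := by
  obtain ⟨m, P, h1, h2, h3, h4, h5, h6⟩ := hf
  have key : ∀ i, Q1Open (P i * A) (P i * D) := fun i =>
    good_open hg hp (IsPsdPair.flag h (h1 i) (h2 i) (h4 i) (h5 i)) (h6 i)
  exact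
    { r02 := fun α h0 h2' h1' =>
        Q1le.flag h0 h h1 h2 h3 h4 h5 fun i => (key i).r02 α h0 h2' h1'
      r23 := fun α h2' h3' =>
        Q1ge.flag (by linarith) h h1 h2 h3 h4 h5 fun i => (key i).r23 α h2' h3'
      r34 := fun α h3' h4' =>
        Q1le.flag (by linarith) h h1 h2 h3 h4 h5 fun i => (key i).r34 α h3' h4' }

theorem flag2_ineq_of (hg : GenOpen) (hp : PertSt) {A₂ D₂ : Matrix κ κ ℂ}
    (h : IsPsdPair A₂ D₂) (hf : Flag2 A₂ D₂) (α : ℝ) : Ineq α A₂ D₂ :=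
  (flag2_open hg hp h hf).ineq α

theorem flag2_one_of (hg : GenOpen) (hp : PertSt) {A₂ D₂ : Matrix κ κ ℂ}
    (h : IsPsdPair A₂ D₂) (hf : Flag2 A₂ D₂) (A D : Matrix ι ι ℂ) (hA : IsPsdPair A D) :
    G1 A D * G1 A₂ D₂ ≤ Real.log 2 * G1 (A ⊗ₖ A₂) (D ⊗ₖ D₂) :=
  (flag2_open hg hp h hf).one h hA

/-- the block predicate on `(S, R)` -/
def GoodSR (κ : Type) [Fintype κ] [DecidableEq κ] (S R : Matrix κ κ ℂ) : Prop :=
  ∃ a b : ℝ, 0 ≤ a ∧ 0 ≤ b ∧ 0 < a + b ∧ RC.Sig11 ((a : ℂ) • S - (b : ℂ) • R)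

theorem goodSR_conj {S R X : Matrix κ κ ℂ} (hX : Xᴴ = X) (h : GoodSR κ S R) :
    GoodSR κ (X * S * X) (X * R * X) := by
  obtain ⟨a, c, ha, hc, hac, hE⟩ := h
  refine ⟨a, c, ha, hc, hac, ?_⟩
  have e : (a : ℂ) • (X * S * X) - (c : ℂ) • (X * R * X) =
      X * ((a : ℂ) • S - (c : ℂ) • R) * X := by
    rw [Matrix.mul_sub, Matrix.sub_mul, Matrix.mul_smul, Matrix.mul_smul, Matrix.smul_mul,
      Matrix.smul_mul]
  rw [e]
  exact sig11_conj hX hE

theorem flagQ_of_pencil {σ : Fin 2 → Matrix b b ℂ} (hf : FlaggedPencil σ) :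
    FlagQ GoodSR (σ 0) (σ 1) := by
  obtain ⟨m, P, h1, h2, h3, h4, h5⟩ := hf
  refine ⟨m, P, h1, h2, h3, fun i => h4 i 0, fun i => h4 i 1, fun i => ?_⟩
  obtain ⟨s, t, hs, ht, hst, v, w, hvw⟩ := h5 i
  refine ⟨s, t, hs, ht, hst, v, w, ?_⟩
  rw [← hvw, Matrix.mul_sub, Matrix.mul_smul, Matrix.mul_smul]

theorem flag2_of_flagQ {A D : Matrix b b ℂ} (hf : FlagQ GoodSR (A + D) (A - D)) :
    Flag2 A D := by
  obtain ⟨m, P, h1, h2, h3, h4, h5, h6⟩ := hf
  refine ⟨m, P, h1, h2, h3, fun i => (comm_of_add_sub (h4 i) (h5 i)).1,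
    fun i => (comm_of_add_sub (h4 i) (h5 i)).2, fun i => ?_⟩
  obtain ⟨a, c, ha, hc, hac, hE⟩ := h6 i
  refine ⟨a, c, ha, hc, hac, ?_⟩
  rwa [← Matrix.mul_add, ← Matrix.mul_sub]

theorem flag2_state {σ : Fin 2 → Matrix b b ℂ} (h : ∀ x, IsDensity (σ x))
    (hf : FlaggedPencil σ) {α : ℝ} (hα : 0 < α) : Flag2 (Aop α σ) (Dop α σ) :=
  flag2_of_flagQ (flagQ_state hα (fun _ _ _ hX hq => goodSR_conj hX hq) h (flagQ_of_pencil hf))

theorem flag2_state_one {σ : Fin 2 → Matrix b b ℂ} (hf : FlaggedPencil σ) :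
    Flag2 (rhoOf σ) (delOf σ) :=
  flag2_of_flagQ (flagQ_state_one (flagQ_of_pencil hf))

theorem goodSR_open (hg : GenOpen) (hp : PertSt) {A D : Matrix κ κ ℂ} (h : IsPsdPair A D)
    (hq : GoodSR κ (A + D) (A - D)) : Q1Open A D :=
  good_open hg hp h hq

theorem pencil_le_of (hg : GenOpen) (hp : PertSt) {σ₁ : Fin 2 → Matrix ι ι ℂ}
    {σ₂ : Fin 2 → Matrix κ κ ℂ} (h₁ : ∀ x, IsDensity (σ₁ x)) (h₂ : ∀ x, IsDensity (σ₂ x))
    (hf : FlaggedPencil σ₁ ∨ FlaggedPencil σ₂) (α : ℝ)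
    (hα : (0 < α ∧ α ≤ 2) ∨ (3 ≤ α ∧ α ≤ 4)) : Hsum α σ₁ σ₂ ≤ Fval α σ₁ σ₂ :=
  state_le (Q := GoodSR) (fun A D h hq => goodSR_open hg hp h hq)
    (fun S R X hX hq => goodSR_conj hX hq) h₁ h₂
    (hf.imp (fun h => flagQ_of_pencil h) (fun h => flagQ_of_pencil h)) α hα

theorem pencil_ge_of (hg : GenOpen) (hp : PertSt) {σ₁ : Fin 2 → Matrix ι ι ℂ}
    {σ₂ : Fin 2 → Matrix κ κ ℂ} (h₁ : ∀ x, IsDensity (σ₁ x)) (h₂ : ∀ x, IsDensity (σ₂ x))
    (hf : FlaggedPencil σ₁ ∨ FlaggedPencil σ₂) (α : ℝ) (h2 : 2 ≤ α) (h3 : α ≤ 3) :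
    Fval α σ₁ σ₂ ≤ Hsum α σ₁ σ₂ :=
  state_ge (Q := GoodSR) (fun A D h hq => goodSR_open hg hp h hq)
    (fun S R X hX hq => goodSR_conj hX hq) h₁ h₂
    (hf.imp (fun h => flagQ_of_pencil h) (fun h => flagQ_of_pencil h)) α h2 h3

end Pool.Agent.LDK
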