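import Pool.Agent.Lib_helper18.LDK.TrP

/-!
# LDK, block CLS, part 2: the class of pairs

`SigMix σ`: `σ = (σ₀, σ₁)` is a flagged mixture of blocks such that in every block some real
combination `a σ₀ + c σ₁`, `(a, c) ≠ (0, 0)`, has at most one positive and at most one negative
eigenvalue.
-/

set_option autoImplicit false

open scoped BigOperators ComplexOrder Kronecker MatrixOrder Topology
open MeasureTheory Set Matrix Filter

namespace Pool.Agent.LDK

open Pool.Agent.RC Pool.Agent.Lib_helper98.Renyi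

variable {ι κ b : Type} [Fintype ι] [DecidableEq ι] [Fintype κ] [DecidableEq κ]
  [Fintype b] [DecidableEq b]

/-- rank at most one, Hermitian -/
def Rk1 (E : Matrix b b ℂ) : Prop := ∃ (v : b → ℂ) (e : ℝ), E = (e : ℂ) • vecMulVec v (star v)

/-! ### closure properties of `Sig11` and `Rk1` -/

theorem smul_vecMulVec_sqrt (u : b → ℂ) {r : ℝ} (hr : 0 ≤ r) :
    (r : ℂ) • vecMulVec u (star u) = vecMulVec (((Real.sqrt r : ℝ) : ℂ) • u)
      (star (((Real.sqrt r : ℝ) : ℂ) • u)) := (vecMulVec_scale u hr).symm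

theorem Sig11.smul {E : Matrix b b ℂ} (h : RC.Sig11 E) (r : ℝ) : RC.Sig11 ((r : ℂ) • E) := by
  obtain ⟨v, w, rfl⟩ := h
  rcases le_total 0 r with hr | hr
  · refine ⟨((Real.sqrt r : ℝ) : ℂ) • v, ((Real.sqrt r : ℝ) : ℂ) • w, ?_⟩
    rw [smul_sub, smul_vecMulVec_sqrt v hr, smul_vecMulVec_sqrt w hr]
  · have hr' : 0 ≤ -r := by linarith
    refine ⟨((Real.sqrt (-r) : ℝ) : ℂ) • w, ((Real.sqrt (-r) : ℝ) : ℂ) • v, ?_⟩
    rw [← smul_vecMulVec_sqrt v hr', ← smul_vecMulVec_sqrt w hr']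
    push_cast
    module

theorem Rk1.smul {E : Matrix b b ℂ} (h : Rk1 E) (r : ℝ) : Rk1 ((r : ℂ) • E) := by
  obtain ⟨v, e, rfl⟩ := h
  exact ⟨v, r * e, by rw [smul_smul]; push_cast; rfl⟩

theorem Rk1.conj {M X : Matrix b b ℂ} (hX : Xᴴ = X) (h : Rk1 M) : Rk1 (X * M * X) := by
  obtain ⟨v, e, rfl⟩ := h
  refine ⟨X *ᵥ v, e, ?_⟩
  rw [Matrix.mul_smul, Matrix.smul_mul, mul_vecMulVec, vecMulVec_mul, star_mulVec, hX]

theorem Rk1.sig11 {E : Matrix b b ℂ} (h : Rk1 E) : RC.Sig11 E := by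
  obtain ⟨v, e, rfl⟩ := h
  exact Sig11.smul ⟨v, 0, by simp⟩ e

/-- a positive semidefinite matrix dominated by a rank-one matrix has rank at most one -/
theorem rk1_of_le {M : Matrix b b ℂ} (hM : M.PosSemidef) (v : b → ℂ)
    (hle : (vecMulVec v (star v) - M).PosSemidef) : Rk1 M := by
  -- `M x = 0` for `x ⊥ v`
  have hker : ∀ x : b → ℂ, star v ⬝ᵥ x = 0 → M *ᵥ x = 0 := by
    intro x hx
    have h1 : (star x ⬝ᵥ (vecMulVec v (star v) - M) *ᵥ x) = -(star x ⬝ᵥ M *ᵥ x) := by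
      rw [Matrix.sub_mulVec, dotProduct_sub, vecMulVec_mulVec, hx]
      simp
    have h2 := hle.dotProduct_mulVec_nonneg x
    have h3 := hM.dotProduct_mulVec_nonneg x
    rw [h1] at h2
    have h4 : star x ⬝ᵥ M *ᵥ x = 0 := le_antisymm (by simpa using h2) h3
    exact (hM.dotProduct_mulVec_zero_iff x).1 h4
  have hext : ∀ N N' : Matrix b b ℂ, (∀ x, N *ᵥ x = N' *ᵥ x) → N = N' := by
    intro N N' h
    exact Matrix.mulVec_injective (funext h)
  by_cases hv : star v ⬝ᵥ v = 0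
  · have hv0 : v = 0 := dotProduct_star_self_eq_zero.1 hv
    refine ⟨v, 0, ?_⟩
    have : M = 0 := by
      apply hext
      intro x
      rw [hker x (by rw [hv0]; simp)]
      simp
    simp [this]
  · obtain ⟨c, hc⟩ : ∃ c : ℝ, star v ⬝ᵥ v = (c : ℂ) := by
      have h1 : (starRingEnd ℂ) (star v ⬝ᵥ v) = star v ⬝ᵥ v := by
        rw [← RCLike.star_def, ← star_dotProduct_star, star_star, dotProduct_comm]
      exact Complex.conj_eq_iff_real.1 h1
    have hc0 : (c : ℂ) ≠ 0 := by rw [← hc]; exact hv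
    have h5 : ∀ x, M *ᵥ x = ((star v ⬝ᵥ x) / c) • (M *ᵥ v) := by
      intro x
      have h6 : star v ⬝ᵥ (x - ((star v ⬝ᵥ x) / c) • v) = 0 := by
        rw [dotProduct_sub, dotProduct_smul, smul_eq_mul, hc, div_mul_cancel₀ _ hc0, sub_self]
      have h7 := hker _ h6
      rw [Matrix.mulVec_sub, Matrix.mulVec_smul] at h7
      exact sub_eq_zero.1 h7
    obtain ⟨t, ht⟩ : ∃ t : ℝ, star v ⬝ᵥ M *ᵥ v = (t : ℂ) := by
      have h8 := hM.dotProduct_mulVec_nonneg v
      have h9 := (Complex.le_def.1 h8).2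
      refine ⟨(star v ⬝ᵥ M *ᵥ v).re, ?_⟩
      apply Complex.ext
      · simp
      · simpa using h9.symm
    have h6 : M *ᵥ v = ((t : ℂ) / c) • v := by
      set w := M *ᵥ v - ((t : ℂ) / c) • v with hw
      have hw1 : star v ⬝ᵥ w = 0 := by
        rw [hw, dotProduct_sub, dotProduct_smul, smul_eq_mul, hc, ht, div_mul_cancel₀ _ hc0,
          sub_self]
      have hw2 : M *ᵥ w = 0 := hker w hw1
      have hw3 : star w ⬝ᵥ M *ᵥ v = 0 := by
        have e : star w ᵥ* M = star (M *ᵥ w) := by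
          rw [star_mulVec, hM.1.eq]
        rw [Matrix.dotProduct_mulVec, e, hw2]
        simp
      have hw4 : star w ⬝ᵥ v = 0 := by
        rw [← star_star v, star_dotProduct_star, hw1, star_zero]
      have hw5 : star w ⬝ᵥ w = 0 := by
        conv_lhs => rw [hw]
        rw [dotProduct_sub, hw3, dotProduct_smul, hw4]
        simp
      have := dotProduct_star_self_eq_zero.1 hw5
      exact sub_eq_zero.1 this
    refine ⟨v, t / (c * c), ?_⟩
    apply hext
    intro x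
    rw [h5 x, h6, Matrix.smul_mulVec, vecMulVec_mulVec, smul_smul]
    ext i
    simp only [Pi.smul_apply, smul_eq_mul, MulOpposite.smul_eq_mul_unop, MulOpposite.unop_op]
    push_cast
    field_simp

/-! ### real combinations of the two blocks -/

theorem add_eq_neg_comb {S R : Matrix b b ℂ} {a c : ℝ} (r : ℝ) (x y : ℝ) (h1 : r * a = x)
    (h2 : r * c = y) : (r : ℂ) • ((a : ℂ) • S + (c : ℂ) • R) = (x : ℂ) • S + (y : ℂ) • R := by
  rw [← h1, ← h2]; push_cast; module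

/-- From a nontrivial real combination `a S + c R` to the form `S - λ R` or `R - λ S`, `λ ≥ 0`. -/
theorem comb_lam {T : Matrix b b ℂ → Prop} (hs : ∀ (r : ℝ) E, T E → T ((r : ℂ) • E))
    (h11 : ∀ E, T E → RC.Sig11 E) (hr : ∀ E, Rk1 E → T E) {S R : Matrix b b ℂ}
    (hS : S.PosSemidef) (hR : R.PosSemidef) {a c : ℝ} (hac : a ≠ 0 ∨ c ≠ 0)
    (hT : T ((a : ℂ) • S + (c : ℂ) • R)) :
    ∃ lam : ℝ, 0 ≤ lam ∧ (T (S - (lam : ℂ) • R) ∨ T (R - (lam : ℂ) • S)) := by
  -- same strict sign: both blocks have rank at most one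
  have pos : ∀ a c : ℝ, 0 < a → 0 < c → T ((a : ℂ) • S + (c : ℂ) • R) →
      ∃ lam : ℝ, 0 ≤ lam ∧ (T (S - (lam : ℂ) • R) ∨ T (R - (lam : ℂ) • S)) := by
    intro a c ha hc hT
    obtain ⟨v, w, hvw⟩ := h11 _ hT
    have h1 : (vecMulVec v (star v) - (a : ℂ) • S).PosSemidef := by
      have e : vecMulVec v (star v) - (a : ℂ) • S = vecMulVec w (star w) + (c : ℂ) • R := by
        have : vecMulVec v (star v) = (a : ℂ) • S + (c : ℂ) • R + vecMulVec w (star w) := by
          rw [hvw]; abel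
        rw [this]; abel
      rw [e]
      exact (posSemidef_vecMulVec_self_star w).add (hR.smul (by exact_mod_cast hc.le))
    have h2 : Rk1 ((a : ℂ) • S) := rk1_of_le (hS.smul (by exact_mod_cast ha.le)) v h1
    have h3 : Rk1 S := by
      have := h2.smul a⁻¹
      rwa [smul_smul, ← Complex.ofReal_mul, inv_mul_cancel₀ ha.ne', Complex.ofReal_one,
        one_smul] at this
    refine ⟨0, le_refl _, Or.inl ?_⟩
    have := hr _ h3
    simpa using this
  rcases lt_trichotomy a 0 with ha | ha | ha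
  · rcases lt_trichotomy c 0 with hc | hc | hc
    · apply pos (-a) (-c) (by linarith) (by linarith)
      have := hs (-1) _ hT
      rwa [add_eq_neg_comb (-1) (-a) (-c) (by ring) (by ring)] at this
    · refine ⟨0, le_refl _, Or.inl ?_⟩
      have := hs (a⁻¹) _ hT
      rw [add_eq_neg_comb a⁻¹ 1 0 (inv_mul_cancel₀ ha.ne) (by rw [hc]; ring)] at this
      simpa using this
    · refine ⟨-c / a, by rw [neg_div, neg_nonneg]; exact div_nonpos_of_nonneg_of_nonpos hc.le ha.le,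
        Or.inl ?_⟩
      have := hs (a⁻¹) _ hT
      rw [add_eq_neg_comb a⁻¹ 1 (-(-c / a)) (inv_mul_cancel₀ ha.ne) (by field_simp)] at this
      rw [Complex.ofReal_one, one_smul, Complex.ofReal_neg, neg_smul, ← sub_eq_add_neg] at this
      exact this
  · have hc : c ≠ 0 := by
      rcases hac with h | h
      · exact absurd ha h
      · exact h
    refine ⟨0, le_refl _, Or.inr ?_⟩
    have := hs (c⁻¹) _ hT
    rw [add_eq_neg_comb c⁻¹ 0 1 (by rw [ha]; ring) (inv_mul_cancel₀ hc)] at this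
    simpa using this
  · rcases lt_trichotomy c 0 with hc | hc | hc
    · refine ⟨-c / a, div_nonneg (by linarith) ha.le, Or.inl ?_⟩
      have := hs (a⁻¹) _ hT
      rw [add_eq_neg_comb a⁻¹ 1 (-(-c / a)) (inv_mul_cancel₀ ha.ne') (by field_simp)] at this
      rw [Complex.ofReal_one, one_smul, Complex.ofReal_neg, neg_smul, ← sub_eq_add_neg] at this
      exact this
    · refine ⟨0, le_refl _, Or.inl ?_⟩
      have := hs (a⁻¹) _ hT
      rw [add_eq_neg_comb a⁻¹ 1 0 (inv_mul_cancel₀ ha.ne') (by rw [hc]; ring)] at this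
      simpa using this
    · exact pos a c ha hc hT

/-! ### from the core inequality to flagged mixtures -/

/-- properties of matrices of every size -/
abbrev MP : Type 1 := ∀ (κ : Type) [Fintype κ] [DecidableEq κ], Matrix κ κ ℂ → Prop

/-- the core inequality, `α ∈ (0,2] ∪ [3,4]`: `A - D` positive definite, `(A+D) - λ(A-D)` in `T` -/
def CoreLe (α : ℝ) (T : MP) : Prop :=
  ∀ (κ : Type) [Fintype κ] [DecidableEq κ] (A D : Matrix κ κ ℂ) (lam : ℝ), IsPsdPair A D →
    (A - D).PosDef → 0 ≤ lam → T κ ((A + D) - (lam : ℂ) • (A - D)) → Q1le α A D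

/-- the core inequality, `α ∈ [2,3]` -/
def CoreGe (α : ℝ) (T : MP) : Prop :=
  ∀ (κ : Type) [Fintype κ] [DecidableEq κ] (A D : Matrix κ κ ℂ) (lam : ℝ), IsPsdPair A D →
    (A - D).PosDef → 0 ≤ lam → T κ ((A + D) - (lam : ℂ) • (A - D)) → Q1ge α A D

theorem pair_neg {A D : Matrix κ κ ℂ} (h : IsPsdPair A D) : IsPsdPair A (-D) where
  pos := h.pos
  sub := by rw [sub_neg_eq_add]; exact h.add
  add := by rw [← sub_eq_add_neg]; exact h.sub

/-- the `j`-th perturbation -/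
noncomputable def eps (j : ℕ) : ℝ := 1 / ((j : ℝ) + 1)

theorem eps_pos (j : ℕ) : 0 < eps j := by unfold eps; positivity

theorem tendsto_eps : Tendsto eps atTop (𝓝 0) := tendsto_one_div_add_atTop_nhds_zero_nat

noncomputable def shA (A : Matrix κ κ ℂ) (lam : ℝ) (j : ℕ) : Matrix κ κ ℂ :=
  A + (((1 + lam) / 2 * eps j : ℝ) : ℂ) • 1

noncomputable def shD (D : Matrix κ κ ℂ) (lam : ℝ) (j : ℕ) : Matrix κ κ ℂ :=
  D + (((lam - 1) / 2 * eps j : ℝ) : ℂ) • 1

theorem tendsto_sh (A : Matrix κ κ ℂ) (c : ℝ) :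
    Tendsto (fun j => A + ((c * eps j : ℝ) : ℂ) • (1 : Matrix κ κ ℂ)) atTop (𝓝 A) := by
  have h1 : Tendsto (fun j => ((c * eps j : ℝ) : ℂ)) atTop (𝓝 ((c * 0 : ℝ) : ℂ)) :=
    (Complex.continuous_ofReal.tendsto _).comp (tendsto_eps.const_mul c)
  have h2 := (tendsto_const_nhds (x := A)).add (h1.smul_const (1 : Matrix κ κ ℂ))
  simpa using h2

theorem sh_sub (A D : Matrix κ κ ℂ) (lam : ℝ) (j : ℕ) :
    shA A lam j - shD D lam j = (A - D) + ((eps j : ℝ) : ℂ) • 1 := by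
  unfold shA shD
  push_cast
  module

theorem sh_add (A D : Matrix κ κ ℂ) (lam : ℝ) (j : ℕ) :
    shA A lam j + shD D lam j = (A + D) + ((lam * eps j : ℝ) : ℂ) • 1 := by
  unfold shA shD
  push_cast
  module

theorem psd_shift {M : Matrix κ κ ℂ} (h : M.PosSemidef) {c : ℝ} (hc : 0 ≤ c) :
    (M + (c : ℂ) • (1 : Matrix κ κ ℂ)).PosSemidef :=
  h.add (Matrix.PosSemidef.one.smul (by exact_mod_cast hc))

theorem pd_shift {M : Matrix κ κ ℂ} (h : M.PosSemidef) {c : ℝ} (hc : 0 < c) :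
    (M + (c : ℂ) • (1 : Matrix κ κ ℂ)).PosDef := by
  rw [add_comm]
  exact (Matrix.PosDef.one.smul (by exact_mod_cast hc)).add_posSemidef h

theorem isPsdPair_sh {A D : Matrix κ κ ℂ} (h : IsPsdPair A D) {lam : ℝ} (hl : 0 ≤ lam) (j : ℕ) :
    IsPsdPair (shA A lam j) (shD D lam j) where
  pos := psd_shift h.pos (by have := eps_pos j; positivity)
  sub := by rw [sh_sub]; exact psd_shift h.sub (eps_pos j).le
  add := by rw [sh_add]; exact psd_shift h.add (by have := eps_pos j; positivity)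

theorem sh_comb (A D : Matrix κ κ ℂ) (lam : ℝ) (j : ℕ) :
    (shA A lam j + shD D lam j) - (lam : ℂ) • (shA A lam j - shD D lam j) =
      (A + D) - (lam : ℂ) • (A - D) := by
  rw [sh_sub, sh_add]
  push_cast
  module

theorem CoreLe.psd {α : ℝ} (hα : 0 < α) {T : MP} (hc : CoreLe α T) {A D : Matrix κ κ ℂ}
    (h : IsPsdPair A D) {lam : ℝ} (hl : 0 ≤ lam) (hT : T κ ((A + D) - (lam : ℂ) • (A - D))) :
    Q1le α A D := by
  refine Q1le.lim hα (isPsdPair_sh h hl) h (tendsto_sh A _) (tendsto_sh D _) fun j => ?_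
  refine hc κ _ _ lam (isPsdPair_sh h hl j) ?_ hl ?_
  · rw [sh_sub]; exact pd_shift h.sub (eps_pos j)
  · rw [sh_comb]; exact hT

theorem CoreGe.psd {α : ℝ} (hα : 0 < α) {T : MP} (hc : CoreGe α T) {A D : Matrix κ κ ℂ}
    (h : IsPsdPair A D) {lam : ℝ} (hl : 0 ≤ lam) (hT : T κ ((A + D) - (lam : ℂ) • (A - D))) :
    Q1ge α A D := by
  refine Q1ge.lim hα (isPsdPair_sh h hl) h (tendsto_sh A _) (tendsto_sh D _) fun j => ?_
  refine hc κ _ _ lam (isPsdPair_sh h hl j) ?_ hl ?_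
  · rw [sh_sub]; exact pd_shift h.sub (eps_pos j)
  · rw [sh_comb]; exact hT

/-- the condition on a pair of blocks `(S, R)` of the two states, `λ` form -/
def LamT (T : MP) (κ : Type) [Fintype κ] [DecidableEq κ] (S R : Matrix κ κ ℂ) : Prop :=
  ∃ lam : ℝ, 0 ≤ lam ∧ (T κ (S - (lam : ℂ) • R) ∨ T κ (R - (lam : ℂ) • S))

theorem CoreLe.pencil {α : ℝ} (hα : 0 < α) {T : MP} (hc : CoreLe α T) {A D : Matrix κ κ ℂ}
    (h : IsPsdPair A D) (hT : LamT T κ (A + D) (A - D)) : Q1le α A D := by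
  obtain ⟨lam, hl, hT | hT⟩ := hT
  · exact hc.psd hα h hl hT
  · apply Q1le.neg
    apply hc.psd hα (pair_neg h) hl
    rwa [← sub_eq_add_neg, sub_neg_eq_add]

theorem CoreGe.pencil {α : ℝ} (hα : 0 < α) {T : MP} (hc : CoreGe α T) {A D : Matrix κ κ ℂ}
    (h : IsPsdPair A D) (hT : LamT T κ (A + D) (A - D)) : Q1ge α A D := by
  obtain ⟨lam, hl, hT | hT⟩ := hT
  · exact hc.psd hα h hl hT
  · apply Q1ge.neg
    apply hc.psd hα (pair_neg h) hl
    rwa [← sub_eq_add_neg, sub_neg_eq_add]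

/-! ### the class at the level of states -/

/-- properties of pairs of matrices of every size -/
abbrev MP2 : Type 1 :=
  ∀ (κ : Type) [Fintype κ] [DecidableEq κ], Matrix κ κ ℂ → Matrix κ κ ℂ → Prop

/-- flagged mixtures: there are orthogonal projections `P i`, summing to the identity and commuting
with both matrices, such that each pair of blocks `(P i S, P i R)` satisfies `Q` -/
def FlagQ (Q : MP2) (S R : Matrix b b ℂ) : Prop :=
  ∃ (m : ℕ) (P : Fin m → Matrix b b ℂ), (∀ i, (P i).IsHermitian) ∧ (∀ i, P i * P i = P i) ∧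
    ∑ i, P i = 1 ∧ (∀ i, P i * S = S * P i) ∧ (∀ i, P i * R = R * P i) ∧
    ∀ i, Q b (P i * S) (P i * R)

theorem psd_flag {P M : Matrix b b ℂ} (h0 : P.IsHermitian) (h1 : P * P = P)
    (hM : M.PosSemidef) (hc : P * M = M * P) : (P * M).PosSemidef := by
  have e : P * M = Pᴴ * M * P := by
    rw [h0.eq, Matrix.mul_assoc, ← hc, ← Matrix.mul_assoc, h1]
  rw [e]
  exact hM.conjTranspose_mul_mul_same P

theorem comm_of_add_sub {P A D : Matrix b b ℂ} (h1 : P * (A + D) = (A + D) * P)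
    (h2 : P * (A - D) = (A - D) * P) : P * A = A * P ∧ P * D = D * P := by
  constructor
  · have e : A = (1 / 2 : ℂ) • ((A + D) + (A - D)) := by module
    rw [e, Matrix.mul_smul, Matrix.smul_mul, Matrix.mul_add, Matrix.add_mul, h1, h2]
  · have e : D = (1 / 2 : ℂ) • ((A + D) - (A - D)) := by module
    rw [e, Matrix.mul_smul, Matrix.smul_mul, Matrix.mul_sub, Matrix.sub_mul, h1, h2]

theorem FlagQ.q1le {β : ℝ} (hβ : 0 < β) {Q : MP2} {A D : Matrix b b ℂ}
    (hc : ∀ A D : Matrix b b ℂ, IsPsdPair A D → Q b (A + D) (A - D) → Q1le β A D)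
    (h : IsPsdPair A D) (hf : FlagQ Q (A + D) (A - D)) : Q1le β A D := by
  obtain ⟨m, P, h1, h2, h3, h4, h5, h6⟩ := hf
  have hcm := fun i => comm_of_add_sub (h4 i) (h5 i)
  refine Q1le.flag hβ h h1 h2 h3 (fun i => (hcm i).1) (fun i => (hcm i).2) fun i =>
    hc _ _ (IsPsdPair.flag h (h1 i) (h2 i) (hcm i).1 (hcm i).2) ?_
  have := h6 i
  rwa [Matrix.mul_add, Matrix.mul_sub] at this

theorem FlagQ.q1ge {β : ℝ} (hβ : 0 < β) {Q : MP2} {A D : Matrix b b ℂ}
    (hc : ∀ A D : Matrix b b ℂ, IsPsdPair A D → Q b (A + D) (A - D) → Q1ge β A D)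
    (h : IsPsdPair A D) (hf : FlagQ Q (A + D) (A - D)) : Q1ge β A D := by
  obtain ⟨m, P, h1, h2, h3, h4, h5, h6⟩ := hf
  have hcm := fun i => comm_of_add_sub (h4 i) (h5 i)
  refine Q1ge.flag hβ h h1 h2 h3 (fun i => (hcm i).1) (fun i => (hcm i).2) fun i =>
    hc _ _ (IsPsdPair.flag h (h1 i) (h2 i) (hcm i).1 (hcm i).2) ?_
  have := h6 i
  rwa [Matrix.mul_add, Matrix.mul_sub] at this

/-- the class is invariant under `(S, R) ↦ (X S X, X R X)` when `X` commutes with the flags -/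
theorem flagQ_state {α : ℝ} (hα : 0 < α) {Q : MP2}
    (hconj : ∀ (S R X : Matrix b b ℂ), Xᴴ = X → Q b S R → Q b (X * S * X) (X * R * X))
    {σ : Fin 2 → Matrix b b ℂ} (h : ∀ x, IsDensity (σ x)) (hf : FlagQ Q (σ 0) (σ 1)) :
    FlagQ Q (Aop α σ + Dop α σ) (Aop α σ - Dop α σ) := by
  obtain ⟨m, P, h1, h2, h3, h4, h5, h6⟩ := hf
  have hρ := rhoOf_posSemidef h
  have hX := mpow_isHermitian hρ ((1 - α) / (2 * α))
  have h45 : ∀ i x, P i * σ x = σ x * P i := by
    intro i x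
    fin_cases x
    · exact h4 i
    · exact h5 i
  have e1 : ∀ i, P i * mpow (rhoOf σ) ((1 - α) / (2 * α)) =
      mpow (rhoOf σ) ((1 - α) / (2 * α)) * P i := fun i => comm_mpow hρ.1 (comm_rhoOf (h45 i)) _
  rw [A_add_D h hα, A_sub_D h hα]
  set X := mpow (rhoOf σ) ((1 - α) / (2 * α)) with hXd
  have ea : ∀ i x, P i * (X * σ x * X) = X * (P i * σ x) * X := by
    intro i x
    rw [← Matrix.mul_assoc, ← Matrix.mul_assoc, e1]
    simp only [Matrix.mul_assoc]
  have eb : ∀ i x, (X * σ x * X) * P i = X * (P i * σ x) * X := by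
    intro i x
    rw [Matrix.mul_assoc, ← e1, h45]
    simp only [Matrix.mul_assoc]
  refine ⟨m, P, h1, h2, h3, fun i => by rw [ea, eb], fun i => by rw [ea, eb], fun i => ?_⟩
  rw [ea, ea]
  exact hconj _ _ _ hX (h6 i)

theorem flagQ_state_one {Q : MP2} {σ : Fin 2 → Matrix b b ℂ} (hf : FlagQ Q (σ 0) (σ 1)) :
    FlagQ Q (rhoOf σ + delOf σ) (rhoOf σ - delOf σ) := by
  rw [rho_add_del, rho_sub_del]
  exact hf

end Pool.Agent.LDK
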