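import Pool.Agent.Lib_helper18.LDK.Cls

/-!
# LDK, block CLS, part 3: endpoints and the state-level theorem
-/

set_option autoImplicit false

open scoped BigOperators ComplexOrder Kronecker MatrixOrder Topology
open MeasureTheory Set Matrix Filter

namespace Pool.Agent.LDK

open Pool.Agent.RC Pool.Agent.Lib_helper98.Renyi

variable {ι κ b : Type} [Fintype ι] [DecidableEq ι] [Fintype κ] [DecidableEq κ]
  [Fintype b] [DecidableEq b]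

/-- the open-range inequalities for one fixed second pair -/
structure Q1Open (A D : Matrix κ κ ℂ) : Prop where
  r02 : ∀ α : ℝ, 0 < α → α < 2 → α ≠ 1 → Q1le α A D
  r23 : ∀ α : ℝ, 2 < α → α < 3 → Q1ge α A D
  r34 : ∀ α : ℝ, 3 < α → α < 4 → Q1le α A D

theorem Q1Open.le {A D : Matrix κ κ ℂ} (h : Q1Open A D) {α : ℝ}
    (hα : (0 < α ∧ α ≤ 2 ∧ α ≠ 1) ∨ (3 ≤ α ∧ α ≤ 4)) : Q1le α A D := by
  intro ι _ _ A₁ D₁ h₁
  rcases hα with ⟨h0, h2, h1⟩ | ⟨h3, h4⟩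
  · rcases eq_or_lt_of_le h2 with rfl | h2'
    · obtain ⟨t1, t2⟩ := tendsto_sides A₁ D₁ A D 2 (by norm_num) (𝓝[<] 2) nhdsWithin_le_nhds
      apply le_of_tendsto_of_tendsto t1 t2
      have hev : ∀ᶠ α : ℝ in 𝓝[<] 2, α ∈ Ioo (1 : ℝ) 2 := Ioo_mem_nhdsLT (by norm_num)
      filter_upwards [hev] with α hα
      exact h.r02 α (by linarith [hα.1]) hα.2 (ne_of_gt hα.1) ι A₁ D₁ h₁
    · exact h.r02 α h0 h2' h1 ι A₁ D₁ h₁
  · rcases eq_or_lt_of_le h3 with rfl | h3'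
    · obtain ⟨t1, t2⟩ := tendsto_sides A₁ D₁ A D 3 (by norm_num) (𝓝[>] 3) nhdsWithin_le_nhds
      apply le_of_tendsto_of_tendsto t1 t2
      have hev : ∀ᶠ α : ℝ in 𝓝[>] 3, α ∈ Ioo (3 : ℝ) 4 := Ioo_mem_nhdsGT (by norm_num)
      filter_upwards [hev] with α hα
      exact h.r34 α hα.1 hα.2 ι A₁ D₁ h₁
    rcases eq_or_lt_of_le h4 with rfl | h4'
    · obtain ⟨t1, t2⟩ := tendsto_sides A₁ D₁ A D 4 (by norm_num) (𝓝[<] 4) nhdsWithin_le_nhds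
      apply le_of_tendsto_of_tendsto t1 t2
      have hev : ∀ᶠ α : ℝ in 𝓝[<] 4, α ∈ Ioo (3 : ℝ) 4 := Ioo_mem_nhdsLT (by norm_num)
      filter_upwards [hev] with α hα
      exact h.r34 α hα.1 hα.2 ι A₁ D₁ h₁
    exact h.r34 α h3' h4' ι A₁ D₁ h₁

theorem Q1Open.ge {A D : Matrix κ κ ℂ} (h : Q1Open A D) {α : ℝ} (h2 : 2 ≤ α) (h3 : α ≤ 3) :
    Q1ge α A D := by
  intro ι _ _ A₁ D₁ h₁
  rcases eq_or_lt_of_le h2 with rfl | h2'
  · obtain ⟨t1, t2⟩ := tendsto_sides A₁ D₁ A D 2 (by norm_num) (𝓝[>] 2) nhdsWithin_le_nhds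
    apply le_of_tendsto_of_tendsto t2 t1
    have hev : ∀ᶠ α : ℝ in 𝓝[>] 2, α ∈ Ioo (2 : ℝ) 3 := Ioo_mem_nhdsGT (by norm_num)
    filter_upwards [hev] with α hα
    exact h.r23 α hα.1 hα.2 ι A₁ D₁ h₁
  rcases eq_or_lt_of_le h3 with rfl | h3'
  · obtain ⟨t1, t2⟩ := tendsto_sides A₁ D₁ A D 3 (by norm_num) (𝓝[<] 3) nhdsWithin_le_nhds
    apply le_of_tendsto_of_tendsto t2 t1
    have hev : ∀ᶠ α : ℝ in 𝓝[<] 3, α ∈ Ioo (2 : ℝ) 3 := Ioo_mem_nhdsLT (by norm_num)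
    filter_upwards [hev] with α hα
    exact h.r23 α hα.1 hα.2 ι A₁ D₁ h₁
  exact h.r23 α h2' h3' ι A₁ D₁ h₁

theorem Q1Open.one {A D : Matrix κ κ ℂ} (h : Q1Open A D) (h₂ : IsPsdPair A D)
    {A₁ D₁ : Matrix ι ι ℂ} (h₁ : IsPsdPair A₁ D₁) :
    G1 A₁ D₁ * G1 A D ≤ Real.log 2 * G1 (A₁ ⊗ₖ A) (D₁ ⊗ₖ D) := by
  have hk := h₁.kron h₂
  have t1 := (tendsto_G1 A₁ D₁ h₁.pos h₁.sub h₁.add).mul
    (tendsto_G1 A D h₂.pos h₂.sub h₂.add)
  have tL : Tendsto (fun α : ℝ => ((2 : ℝ) ^ (α - 1) - 1) / (α - 1)) (𝓝[>] 1)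
      (𝓝 (Real.log 2)) := by
    have h1 : HasDerivAt (fun α : ℝ => (2 : ℝ) ^ α) ((2 : ℝ) ^ (1 : ℝ) * Real.log 2) 1 := by
      have := (hasDerivAt_id (1 : ℝ)).const_rpow (by norm_num : (0 : ℝ) < 2)
      simpa [mul_comm] using this
    have h3 : Tendsto (slope (fun α : ℝ => (2 : ℝ) ^ α) 1) (𝓝[>] 1)
        (𝓝 ((2 : ℝ) ^ (1 : ℝ) * Real.log 2)) :=
      h1.tendsto_slope.mono_left (nhdsWithin_mono _ fun y hy => ne_of_gt hy)
    have h4 := h3.const_mul (1 / 2)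
    have e : 1 / 2 * ((2 : ℝ) ^ (1 : ℝ) * Real.log 2) = Real.log 2 := by
      rw [Real.rpow_one]; ring
    rw [e] at h4
    refine h4.congr fun α => ?_
    rw [slope_def_field, Real.rpow_one, Real.rpow_sub_one (by norm_num)]
    ring
  have t2 := tL.mul (tendsto_G1 (A₁ ⊗ₖ A) (D₁ ⊗ₖ D) hk.pos hk.sub hk.add)
  apply le_of_tendsto_of_tendsto t1 t2
  have hev : ∀ᶠ α : ℝ in 𝓝[>] 1, α ∈ Ioo (1 : ℝ) 2 := Ioo_mem_nhdsGT (by norm_num)
  filter_upwards [hev] with α hα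
  have h3 := h.r02 α (by linarith [hα.1]) hα.2 (ne_of_gt hα.1) ι A₁ D₁ h₁
  have h4 : 0 < α - 1 := by linarith [hα.1]
  rw [div_mul_div_comm, div_mul_div_comm]
  exact div_le_div_of_nonneg_right h3 (by positivity)

/-- `Q1Open` for flagged mixtures -/
theorem Q1Open.flag {Q : MP2} {A D : Matrix b b ℂ}
    (hc : ∀ A D : Matrix b b ℂ, IsPsdPair A D → Q b (A + D) (A - D) → Q1Open A D)
    (h : IsPsdPair A D) (hf : FlagQ Q (A + D) (A - D)) : Q1Open A D where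
  r02 α h0 h2 h1 := FlagQ.q1le h0 (fun A D hp hq => (hc A D hp hq).r02 α h0 h2 h1) h hf
  r23 α h2 h3 := FlagQ.q1ge (by linarith) (fun A D hp hq => (hc A D hp hq).r23 α h2 h3) h hf
  r34 α h3 h4 := FlagQ.q1le (by linarith) (fun A D hp hq => (hc A D hp hq).r34 α h3 h4) h hf

/-- the landed class: `D = v v* - w w*` -/
theorem Q1Open.landed {A D : Matrix κ κ ℂ} (h : IsPsdPair A D) (hs : RC.Sig11 D) :
    Q1Open A D where
  r02 α h0 h2 h1 := by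
    intro ι _ _ A₁ D₁ h₁
    have := final02 α h0 h2.le h1 A D h (Sig11.flag A D hs) A₁ D₁ h₁
    rw [G_swap] at this
    linarith [mul_comm (G α A D) (G α A₁ D₁)]
  r23 α h2 h3 := by
    intro ι _ _ A₁ D₁ h₁
    have := final23 α h2.le h3.le A D h (Sig11.flag A D hs) A₁ D₁ h₁
    rw [G_swap] at this
    linarith [mul_comm (G α A D) (G α A₁ D₁)]
  r34 α h3 h4 := by
    intro ι _ _ A₁ D₁ h₁
    have := final34 α h3.le h4.le A D h (Sig11.flag A D hs) A₁ D₁ h₁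
    rw [G_swap] at this
    linarith [mul_comm (G α A D) (G α A₁ D₁)]

/-- the three core inequalities for a class `T` of centres -/
structure Core (T : MP) : Prop where
  r02 : ∀ α : ℝ, 0 < α → α < 2 → α ≠ 1 → CoreLe α T
  r23 : ∀ α : ℝ, 2 < α → α < 3 → CoreGe α T
  r34 : ∀ α : ℝ, 3 < α → α < 4 → CoreLe α T

theorem Core.open {T : MP} (hc : Core T) {A D : Matrix κ κ ℂ} (h : IsPsdPair A D)
    (hT : LamT T κ (A + D) (A - D)) : Q1Open A D where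
  r02 α h0 h2 h1 := (hc.r02 α h0 h2 h1).pencil h0 h hT
  r23 α h2 h3 := (hc.r23 α h2 h3).pencil (by linarith) h hT
  r34 α h3 h4 := (hc.r34 α h3 h4).pencil (by linarith) h hT

/-- the state-level theorem, upper bounds -/
theorem state_le {Q : MP2}
    (hc : ∀ {κ : Type} [Fintype κ] [DecidableEq κ] (A D : Matrix κ κ ℂ), IsPsdPair A D →
      Q κ (A + D) (A - D) → Q1Open A D)
    (hconj : ∀ {κ : Type} [Fintype κ] [DecidableEq κ] (S R X : Matrix κ κ ℂ), Xᴴ = X →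
      Q κ S R → Q κ (X * S * X) (X * R * X))
    {σ₁ : Fin 2 → Matrix ι ι ℂ} {σ₂ : Fin 2 → Matrix κ κ ℂ}
    (h₁ : ∀ x, IsDensity (σ₁ x)) (h₂ : ∀ x, IsDensity (σ₂ x))
    (hf : FlagQ Q (σ₁ 0) (σ₁ 1) ∨ FlagQ Q (σ₂ 0) (σ₂ 1)) (α : ℝ)
    (hα : (0 < α ∧ α ≤ 2) ∨ (3 ≤ α ∧ α ≤ 4)) : Hsum α σ₁ σ₂ ≤ Fval α σ₁ σ₂ := by
  have h0 : 0 < α := by
    rcases hα with h | h
    · exact h.1
    · linarith [h.1]
  by_cases h1 : α = 1
  · subst h1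
    have p₁ := psdPair_state_one h₁
    have p₂ := psdPair_state_one h₂
    apply Hsum_le_Fval_one h₁ h₂
    rw [p₁.GfunOne_eq, p₂.GfunOne_eq, (p₁.kron p₂).GfunOne_eq]
    rcases hf with hf | hf
    · have := (Q1Open.flag (fun A D => hc A D) p₁ (flagQ_state_one hf)).one p₁ p₂
      rwa [G1_swap, mul_comm (G1 _ _)] at this
    · exact (Q1Open.flag (fun A D => hc A D) p₂ (flagQ_state_one hf)).one p₂ p₁
  · have p₁ := psdPair_state h₁ h0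
    have p₂ := psdPair_state h₂ h0
    have hα' : (0 < α ∧ α ≤ 2 ∧ α ≠ 1) ∨ (3 ≤ α ∧ α ≤ 4) := by
      rcases hα with h | h
      · exact Or.inl ⟨h.1, h.2, h1⟩
      · exact Or.inr h
    apply Hsum_le_Fval h₁ h₂ h0 h1
    rw [p₁.Gfun_eq h0, p₂.Gfun_eq h0, (p₁.kron p₂).Gfun_eq h0]
    rcases hf with hf | hf
    · have := (Q1Open.flag (fun A D => hc A D) p₁
        (flagQ_state h0 (fun S R X => hconj S R X) h₁ hf)).le hα' κ _ _ p₂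
      rwa [G_swap, mul_comm (G α _ _)] at this
    · exact (Q1Open.flag (fun A D => hc A D) p₂
        (flagQ_state h0 (fun S R X => hconj S R X) h₂ hf)).le hα' ι _ _ p₁

/-- the state-level theorem, lower bounds -/
theorem state_ge {Q : MP2}
    (hc : ∀ {κ : Type} [Fintype κ] [DecidableEq κ] (A D : Matrix κ κ ℂ), IsPsdPair A D →
      Q κ (A + D) (A - D) → Q1Open A D)
    (hconj : ∀ {κ : Type} [Fintype κ] [DecidableEq κ] (S R X : Matrix κ κ ℂ), Xᴴ = X →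
      Q κ S R → Q κ (X * S * X) (X * R * X))
    {σ₁ : Fin 2 → Matrix ι ι ℂ} {σ₂ : Fin 2 → Matrix κ κ ℂ}
    (h₁ : ∀ x, IsDensity (σ₁ x)) (h₂ : ∀ x, IsDensity (σ₂ x))
    (hf : FlagQ Q (σ₁ 0) (σ₁ 1) ∨ FlagQ Q (σ₂ 0) (σ₂ 1)) (α : ℝ) (h2 : 2 ≤ α) (h3 : α ≤ 3) :
    Fval α σ₁ σ₂ ≤ Hsum α σ₁ σ₂ := by
  have h0 : 0 < α := by linarith
  have p₁ := psdPair_state h₁ h0
  have p₂ := psdPair_state h₂ h0
  apply Fval_le_Hsum_of_one_lt h₁ h₂ (by linarith)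
  rw [p₁.Gfun_eq h0, p₂.Gfun_eq h0, (p₁.kron p₂).Gfun_eq h0]
  rcases hf with hf | hf
  · have := (Q1Open.flag (fun A D => hc A D) p₁
      (flagQ_state h0 (fun S R X => hconj S R X) h₁ hf)).ge h2 h3 κ _ _ p₂
    rwa [G_swap, mul_comm (G α _ _)] at this
  · exact (Q1Open.flag (fun A D => hc A D) p₂
      (flagQ_state h0 (fun S R X => hconj S R X) h₂ hf)).ge h2 h3 ι _ _ p₁

end Pool.Agent.LDK
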