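import Pool.Agent.Lib_helper18.LDK.Abs

/-!
# LDK, block CLS, part 1: `G` is additive over commuting projections
-/

set_option autoImplicit false

open scoped BigOperators ComplexOrder Kronecker MatrixOrder Topology
open MeasureTheory Set Matrix Filter Polynomial

namespace Pool.Agent.LDK

open Pool.Agent.RC

variable {ι κ : Type} [Fintype ι] [DecidableEq ι] [Fintype κ] [DecidableEq κ]

theorem exists_poly_interp (f : ℝ → ℝ) (hf0 : f 0 = 0) (S : Finset ℝ) :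
    ∃ q : ℝ[X], ∀ x ∈ S, (X * q).eval x = f x := by
  classical
  set p : ℝ[X] := Lagrange.interpolate (insert 0 S) id f with hp
  have hev : ∀ x ∈ insert 0 S, p.eval x = f x := by
    intro x hx
    have := Lagrange.eval_interpolate_at_node (s := insert 0 S) (v := id) f
      (Set.injOn_id _) hx
    exact this
  have h0 : p.IsRoot 0 := by
    show p.eval 0 = 0
    rw [hev 0 (Finset.mem_insert_self _ _), hf0]
  obtain ⟨q, hq⟩ := Polynomial.dvd_iff_isRoot.2 h0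
  refine ⟨q, fun x hx => ?_⟩
  rw [← hev x (Finset.mem_insert_of_mem hx), hq]
  simp

theorem aeval_flag (P M : Matrix ι ι ℂ) (hP : P * P = P) (h : P * M = M * P) (q : ℝ[X]) :
    aeval (P * M) (X * q) = P * aeval M (X * q) := by
  induction q using Polynomial.induction_on' with
  | add p q hp hq => rw [mul_add, map_add, map_add, hp, hq, Matrix.mul_add]
  | monomial n a =>
    rw [Polynomial.X_mul_monomial, aeval_monomial, aeval_monomial,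
      pow_flag P M hP h (n + 1) (Nat.succ_pos n), Algebra.algebraMap_eq_smul_one,
      Matrix.smul_mul, Matrix.one_mul, Matrix.smul_mul, Matrix.one_mul, Matrix.mul_smul]

theorem trF_eq_aeval (f : ℝ → ℝ) {M : Matrix ι ι ℂ} (h : M.IsHermitian) (p : ℝ[X])
    (hp : ∀ i, p.eval (h.eigenvalues i) = f (h.eigenvalues i)) :
    trF f M = ((aeval M p).trace).re := by
  rw [← TRF.trF_poly p h]
  unfold trF
  rw [dif_pos h, dif_pos h]
  exact Finset.sum_congr rfl fun i _ => (hp i).symm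

theorem herm_flag {P M : Matrix ι ι ℂ} (hP : P.IsHermitian) (hM : M.IsHermitian)
    (h : P * M = M * P) : (P * M).IsHermitian := by
  unfold Matrix.IsHermitian
  rw [Matrix.conjTranspose_mul, hP.eq, hM.eq, h]

/-- `trF f` splits over commuting projections when `f 0 = 0` -/
theorem trF_flag (f : ℝ → ℝ) (hf0 : f 0 = 0) {M : Matrix ι ι ℂ} (hM : M.IsHermitian) {m : ℕ}
    {P : Fin m → Matrix ι ι ℂ} (h0 : ∀ i, (P i).IsHermitian) (h1 : ∀ i, P i * P i = P i)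
    (h2 : ∑ i, P i = 1) (h3 : ∀ i, P i * M = M * P i) :
    trF f M = ∑ i, trF f (P i * M) := by
  classical
  have hH : ∀ i, (P i * M).IsHermitian := fun i => herm_flag (h0 i) hM (h3 i)
  obtain ⟨q, hq⟩ := exists_poly_interp f hf0
    ((Finset.univ.image hM.eigenvalues) ∪
      Finset.univ.biUnion fun i => Finset.univ.image (hH i).eigenvalues)
  rw [trF_eq_aeval f hM (X * q) (fun i => hq _ (Finset.mem_union_left _
    (Finset.mem_image_of_mem _ (Finset.mem_univ i))))]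
  have e : ∀ i, trF f (P i * M) = ((P i * aeval M (X * q)).trace).re := by
    intro i
    rw [trF_eq_aeval f (hH i) (X * q) (fun k => hq _ (Finset.mem_union_right _
      (Finset.mem_biUnion.2 ⟨i, Finset.mem_univ i,
        Finset.mem_image_of_mem _ (Finset.mem_univ k)⟩))), aeval_flag (P i) M (h1 i) (h3 i)]
  simp_rw [e]
  rw [← Complex.re_sum, ← Matrix.trace_sum, ← Finset.sum_mul, h2, Matrix.one_mul]

theorem G_flag {α : ℝ} (hα : 0 < α) {A D : Matrix ι ι ℂ} (hA : A.IsHermitian)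
    (hD : D.IsHermitian) {m : ℕ} {P : Fin m → Matrix ι ι ℂ} (h0 : ∀ i, (P i).IsHermitian)
    (h1 : ∀ i, P i * P i = P i) (h2 : ∑ i, P i = 1) (h3 : ∀ i, P i * A = A * P i)
    (h4 : ∀ i, P i * D = D * P i) :
    G α A D = ∑ i, G α (P i * A) (P i * D) := by
  have hz : (fun x : ℝ => x ^ α) 0 = 0 := Real.zero_rpow hα.ne'
  unfold G
  rw [trF_flag (fun x => x ^ α) hz (hA.add hD) h0 h1 h2
      (fun i => by rw [Matrix.mul_add, Matrix.add_mul, h3, h4]),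
    trF_flag (fun x => x ^ α) hz (hA.sub hD) h0 h1 h2
      (fun i => by rw [Matrix.mul_sub, Matrix.sub_mul, h3, h4]),
    trF_flag (fun x => x ^ α) hz hA h0 h1 h2 h3, ← Finset.sum_add_distrib, Finset.sum_div,
    ← Finset.sum_sub_distrib]
  refine Finset.sum_congr rfl fun i _ => ?_
  rw [Matrix.mul_add, Matrix.mul_sub]

theorem IsPsdPair.flag {A D : Matrix ι ι ℂ} (h : IsPsdPair A D) {P : Matrix ι ι ℂ}
    (h0 : P.IsHermitian) (h1 : P * P = P) (h3 : P * A = A * P) (h4 : P * D = D * P) :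
    IsPsdPair (P * A) (P * D) := by
  have key : ∀ M : Matrix ι ι ℂ, M.PosSemidef → P * M = M * P → (P * M).PosSemidef := by
    intro M hM hc
    have e : P * M = Pᴴ * M * P := by
      rw [h0.eq, Matrix.mul_assoc, ← hc, ← Matrix.mul_assoc, h1]
    rw [e]
    exact hM.conjTranspose_mul_mul_same P
  refine ⟨key A h.pos h3, ?_, ?_⟩
  · rw [← Matrix.mul_sub]
    exact key _ h.sub (by rw [Matrix.mul_sub, Matrix.sub_mul, h3, h4])
  · rw [← Matrix.mul_add]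
    exact key _ h.add (by rw [Matrix.mul_add, Matrix.add_mul, h3, h4])

/-- `G` of a tensor product splits over flags of the second factor -/
theorem G_kron_flag {α : ℝ} (hα : 0 < α) {A₁ D₁ : Matrix ι ι ℂ} (hA₁ : A₁.IsHermitian)
    (hD₁ : D₁.IsHermitian) {A₂ D₂ : Matrix κ κ ℂ} (hA₂ : A₂.IsHermitian) (hD₂ : D₂.IsHermitian)
    {m : ℕ} {P : Fin m → Matrix κ κ ℂ} (h0 : ∀ i, (P i).IsHermitian)
    (h1 : ∀ i, P i * P i = P i) (h2 : ∑ i, P i = 1) (h3 : ∀ i, P i * A₂ = A₂ * P i)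
    (h4 : ∀ i, P i * D₂ = D₂ * P i) :
    G α (A₁ ⊗ₖ A₂) (D₁ ⊗ₖ D₂) = ∑ i, G α (A₁ ⊗ₖ (P i * A₂)) (D₁ ⊗ₖ (P i * D₂)) := by
  have hk : ∀ {X : Matrix ι ι ℂ} {Y : Matrix κ κ ℂ}, X.IsHermitian → Y.IsHermitian →
      (X ⊗ₖ Y).IsHermitian := by
    intro X Y hX hY
    unfold Matrix.IsHermitian
    rw [Matrix.conjTranspose_kronecker, hX.eq, hY.eq]
  have e : ∀ (i) (X : Matrix ι ι ℂ) (Y : Matrix κ κ ℂ),
      ((1 : Matrix ι ι ℂ) ⊗ₖ P i) * (X ⊗ₖ Y) = X ⊗ₖ (P i * Y) := by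
    intro i X Y
    rw [← Matrix.mul_kronecker_mul, Matrix.one_mul]
  have e' : ∀ (i) (X : Matrix ι ι ℂ) (Y : Matrix κ κ ℂ),
      (X ⊗ₖ Y) * ((1 : Matrix ι ι ℂ) ⊗ₖ P i) = X ⊗ₖ (Y * P i) := by
    intro i X Y
    rw [← Matrix.mul_kronecker_mul, Matrix.mul_one]
  rw [G_flag hα (hk hA₁ hA₂) (hk hD₁ hD₂) (P := fun i => (1 : Matrix ι ι ℂ) ⊗ₖ P i)
    (fun i => hk Matrix.isHermitian_one (h0 i))
    (fun i => by rw [← Matrix.mul_kronecker_mul, Matrix.one_mul, h1])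
    (by
      have : ∑ i, (1 : Matrix ι ι ℂ) ⊗ₖ P i = (1 : Matrix ι ι ℂ) ⊗ₖ (∑ i, P i) := by
        ext a b
        simp only [Matrix.sum_apply, Matrix.kroneckerMap_apply, Finset.mul_sum]
      rw [this, h2, Matrix.one_kronecker_one])
    (fun i => by rw [e, e', h3]) (fun i => by rw [e, e', h4])]
  refine Finset.sum_congr rfl fun i _ => ?_
  rw [e, e]

/-- Q1 inequality (`α ∈ (0,2] ∪ [3,4]`) for all first systems -/
def Q1le (α : ℝ) (A₂ D₂ : Matrix κ κ ℂ) : Prop :=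
  ∀ (ι : Type) [Fintype ι] [DecidableEq ι] (A₁ D₁ : Matrix ι ι ℂ), IsPsdPair A₁ D₁ →
    G α A₁ D₁ * G α A₂ D₂ ≤ (2 ^ (α - 1) - 1) * G α (A₁ ⊗ₖ A₂) (D₁ ⊗ₖ D₂)

/-- Q1 inequality (`α ∈ [2,3]`) for all first systems -/
def Q1ge (α : ℝ) (A₂ D₂ : Matrix κ κ ℂ) : Prop :=
  ∀ (ι : Type) [Fintype ι] [DecidableEq ι] (A₁ D₁ : Matrix ι ι ℂ), IsPsdPair A₁ D₁ →
    (2 ^ (α - 1) - 1) * G α (A₁ ⊗ₖ A₂) (D₁ ⊗ₖ D₂) ≤ G α A₁ D₁ * G α A₂ D₂

theorem Q1le.flag {α : ℝ} (hα : 0 < α) {A₂ D₂ : Matrix κ κ ℂ} (h₂ : IsPsdPair A₂ D₂)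
    {m : ℕ} {P : Fin m → Matrix κ κ ℂ} (h0 : ∀ i, (P i).IsHermitian)
    (h1 : ∀ i, P i * P i = P i) (h2 : ∑ i, P i = 1) (h3 : ∀ i, P i * A₂ = A₂ * P i)
    (h4 : ∀ i, P i * D₂ = D₂ * P i) (h : ∀ i, Q1le α (P i * A₂) (P i * D₂)) :
    Q1le α A₂ D₂ := by
  intro ι _ _ A₁ D₁ h₁
  rw [G_kron_flag hα h₁.pos.1 h₁.herm h₂.pos.1 h₂.herm h0 h1 h2 h3 h4,
    G_flag hα h₂.pos.1 h₂.herm h0 h1 h2 h3 h4, Finset.mul_sum, Finset.mul_sum]
  exact Finset.sum_le_sum fun i _ => h i ι A₁ D₁ h₁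

theorem Q1ge.flag {α : ℝ} (hα : 0 < α) {A₂ D₂ : Matrix κ κ ℂ} (h₂ : IsPsdPair A₂ D₂)
    {m : ℕ} {P : Fin m → Matrix κ κ ℂ} (h0 : ∀ i, (P i).IsHermitian)
    (h1 : ∀ i, P i * P i = P i) (h2 : ∑ i, P i = 1) (h3 : ∀ i, P i * A₂ = A₂ * P i)
    (h4 : ∀ i, P i * D₂ = D₂ * P i) (h : ∀ i, Q1ge α (P i * A₂) (P i * D₂)) :
    Q1ge α A₂ D₂ := by
  intro ι _ _ A₁ D₁ h₁
  rw [G_kron_flag hα h₁.pos.1 h₁.herm h₂.pos.1 h₂.herm h0 h1 h2 h3 h4,
    G_flag hα h₂.pos.1 h₂.herm h0 h1 h2 h3 h4, Finset.mul_sum, Finset.mul_sum]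
  exact Finset.sum_le_sum fun i _ => h i ι A₁ D₁ h₁

/-! ### exchange of the two states of a pair -/

theorem G_neg (α : ℝ) (A D : Matrix ι ι ℂ) : G α A (-D) = G α A D := by
  unfold G
  rw [← sub_eq_add_neg, sub_neg_eq_add, add_comm (trF _ (A - D))]

theorem kron_neg (X : Matrix ι ι ℂ) (Y : Matrix κ κ ℂ) : X ⊗ₖ (-Y) = -(X ⊗ₖ Y) := by
  ext i j
  simp [Matrix.kroneckerMap_apply]

theorem Q1le.neg {α : ℝ} {A₂ D₂ : Matrix κ κ ℂ} (h : Q1le α A₂ (-D₂)) : Q1le α A₂ D₂ := by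
  intro ι _ _ A₁ D₁ h₁
  have := h ι A₁ D₁ h₁
  rwa [G_neg, kron_neg, G_neg] at this

theorem Q1ge.neg {α : ℝ} {A₂ D₂ : Matrix κ κ ℂ} (h : Q1ge α A₂ (-D₂)) : Q1ge α A₂ D₂ := by
  intro ι _ _ A₁ D₁ h₁
  have := h ι A₁ D₁ h₁
  rwa [G_neg, kron_neg, G_neg] at this

/-! ### limits -/

theorem tendsto_G_seq {α : ℝ} (hα : 0 < α) {A D : ℕ → Matrix ι ι ℂ} {A₀ D₀ : Matrix ι ι ℂ}
    (hA : ∀ j, (A j).IsHermitian) (hD : ∀ j, (D j).IsHermitian) (hA₀ : A₀.IsHermitian)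
    (hD₀ : D₀.IsHermitian) (tA : Tendsto A atTop (𝓝 A₀)) (tD : Tendsto D atTop (𝓝 D₀)) :
    Tendsto (fun j => G α (A j) (D j)) atTop (𝓝 (G α A₀ D₀)) := by
  have hc : Continuous fun x : ℝ => x ^ α := Real.continuous_rpow_const hα.le
  unfold G
  exact (((tendsto_trF _ hc _ _ (fun j => (hA j).add (hD j)) (hA₀.add hD₀) (tA.add tD)).add
    (tendsto_trF _ hc _ _ (fun j => (hA j).sub (hD j)) (hA₀.sub hD₀) (tA.sub tD))).div_const
      2).sub (tendsto_trF _ hc _ _ hA hA₀ tA)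

theorem tendsto_kron {X : Matrix ι ι ℂ} {Y : ℕ → Matrix κ κ ℂ} {Y₀ : Matrix κ κ ℂ}
    (tY : Tendsto Y atTop (𝓝 Y₀)) :
    Tendsto (fun j => X ⊗ₖ Y j) atTop (𝓝 (X ⊗ₖ Y₀)) := by
  refine tendsto_pi_nhds.2 fun a => tendsto_pi_nhds.2 fun b => ?_
  have h1 := (tendsto_pi_nhds.1 (tendsto_pi_nhds.1 tY a.2)) b.2
  exact h1.const_mul (X a.1 b.1)

theorem hk' {X : Matrix ι ι ℂ} {Y : Matrix κ κ ℂ} (hX : X.IsHermitian) (hY : Y.IsHermitian) :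
    (X ⊗ₖ Y).IsHermitian := by
  unfold Matrix.IsHermitian
  rw [Matrix.conjTranspose_kronecker, hX.eq, hY.eq]

theorem Q1le.lim {α : ℝ} (hα : 0 < α) {A D : ℕ → Matrix κ κ ℂ} {A₀ D₀ : Matrix κ κ ℂ}
    (h : ∀ j, IsPsdPair (A j) (D j)) (h₀ : IsPsdPair A₀ D₀) (tA : Tendsto A atTop (𝓝 A₀))
    (tD : Tendsto D atTop (𝓝 D₀)) (hq : ∀ j, Q1le α (A j) (D j)) : Q1le α A₀ D₀ := by
  intro ι _ _ A₁ D₁ h₁
  refine le_of_tendsto_of_tendsto' ((tendsto_G_seq hα (fun j => (h j).pos.1)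
    (fun j => (h j).herm) h₀.pos.1 h₀.herm tA tD).const_mul (G α A₁ D₁))
    ((tendsto_G_seq hα (fun j => hk' h₁.pos.1 (h j).pos.1) (fun j => hk' h₁.herm (h j).herm)
      (hk' h₁.pos.1 h₀.pos.1) (hk' h₁.herm h₀.herm) (tendsto_kron tA)
      (tendsto_kron tD)).const_mul (2 ^ (α - 1) - 1)) ?_
  intro j
  exact hq j ι A₁ D₁ h₁

theorem Q1ge.lim {α : ℝ} (hα : 0 < α) {A D : ℕ → Matrix κ κ ℂ} {A₀ D₀ : Matrix κ κ ℂ}
    (h : ∀ j, IsPsdPair (A j) (D j)) (h₀ : IsPsdPair A₀ D₀) (tA : Tendsto A atTop (𝓝 A₀))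
    (tD : Tendsto D atTop (𝓝 D₀)) (hq : ∀ j, Q1ge α (A j) (D j)) : Q1ge α A₀ D₀ := by
  intro ι _ _ A₁ D₁ h₁
  refine le_of_tendsto_of_tendsto'
    ((tendsto_G_seq hα (fun j => hk' h₁.pos.1 (h j).pos.1) (fun j => hk' h₁.herm (h j).herm)
      (hk' h₁.pos.1 h₀.pos.1) (hk' h₁.herm h₀.herm) (tendsto_kron tA)
      (tendsto_kron tD)).const_mul (2 ^ (α - 1) - 1))
    ((tendsto_G_seq hα (fun j => (h j).pos.1)
      (fun j => (h j).herm) h₀.pos.1 h₀.herm tA tD).const_mul (G α A₁ D₁)) ?_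
  intro j
  exact hq j ι A₁ D₁ h₁

end Pool.Agent.LDK
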